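import Pool.Agent.Helper58.P4.TrK

/-!
# Isogeny invariance of Conjecture A when the two characters are conjugate

`K` is a number field, `Kb` an algebraic closure and `p` an odd prime. Conjecture A of Coates and
Sujatha for an elliptic curve `W` over `K` (`ConjCS p W`) says that the Pontryagin dual of the
fine Selmer group of `W[p^∞]` over the cyclotomic `ℤ_p`-extension of `K` is a finitely generated
`ℤ_p`-module.
-/

open Pool.Agent.Helper58.P4 WeierstrassCurve
open scoped Classical

attribute [-instance] Pool.Agent.Helper58.IQ.instDecEqKb

universe u

namespace Pool.Agent.Results.MP_b529ab_nt.ConjugateKernels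

/-- Let `W` be an elliptic curve over a number field `K`, `p` an odd prime and `T` a Galois stable
subgroup of order `p` of `W[p]`. Suppose that there are a finite Galois extension `L` of `K` of
`p`-power degree and an automorphism `σ` of `Kb` with `σ(L) = L` such that `W[p] / T` is isomorphic
over `Gal(Kb/L)` to the conjugate module `T^σ`. Then Conjecture A at `p` holds for `W` if and only
if it holds for `W'`, for every elliptic curve `W'` that is isogenous to `W` over `K`. -/
theorem result (K : Type u) [Field K] [NumberField K] (p : ℕ) [Fact p.Prime] (hp : p ≠ 2)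
    (W : WeierstrassCurve K) (hW : W.Δ ≠ 0)
    (T : AddSubgroup (Affine.baseChange W (AlgebraicClosure K)).Point) (hs : Stab W T)
    (hT : T ≤ torp p W) (hc : Nat.card T = p) (h : Conj p W T)
    (W' : WeierstrassCurve K) (hW' : W'.Δ ≠ 0) (hI : IsogBoth W W') :
    ConjCS p W ↔ ConjCS p W' :=
  conj_main K p hp W hW T hs hT hc h W' hW' hI

end Pool.Agent.Results.MP_b529ab_nt.ConjugateKernels
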