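import Pool.Agent.Helper58.P4.TrD

/-!
# Isogeny invariance of Conjecture A at 3 for a pair of isogenous curves

`K` is a number field, `Kb` an algebraic closure. Conjecture A of Coates and Sujatha for an
elliptic curve `W` over `K` and `p = 3` (`ConjCS 3 W`) says that the Pontryagin dual of the fine
Selmer group of `W[3^∞]` over the cyclotomic `ℤ_3`-extension `K_cyc` is a finitely generated
`ℤ_3`-module.

Let `W` and `W'` be isogenous over `K`. If `W[3]` has no Galois stable subgroup of order 3, then
Conjecture A holds for `W` if and only if it holds for `W'`. Otherwise Conjecture A for `W` and for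
`W'` are statements on the fine Selmer groups of the one-dimensional modules `T` and `T'` over the
fields `K(θ)` and `K(θ')`, where `θ` and `θ'` are the cube roots of the discriminants.
-/

open Pool.Agent.Helper58.P4 WeierstrassCurve
open scoped Classical

attribute [-instance] Pool.Agent.Helper58.IQ.instDecEqKb

universe u

namespace Pool.Agent.Results.MP_b529ab_nt.IsogenousPairs

/-- Let `W` and `W'` be elliptic curves over a number field `K` that are isogenous over `K`.

(a) If `W[3]` has no stable subgroup of order 3, then Conjecture A at 3 holds for `W` if and only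
if it holds for `W'`.

(b) Let `T` be a stable subgroup of order 3. Then there is a stable subgroup of order 3 of `W'`, and
for every such subgroup `T'`: if `T` is isomorphic to `F_3(χ)`, then `T'` is isomorphic to `F_3(χ)`
or to `F_3(χω)`; Conjecture A at 3 holds for `W` if and only if `DiscFin W T`, that is: the fine
Selmer group of `T` over the cyclotomic `ℤ_3`-extension of `K(θ)` is finite for all cube roots `θ`
of the discriminant of `W`; the same holds for `W'` and `T'`; and so Conjecture A at 3 is equivalent
for `W` and `W'` if and only if `DiscFin W T` and `DiscFin W' T'` are equivalent. -/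
theorem result (K : Type u) [Field K] [NumberField K] (W W' : WeierstrassCurve K)
    (hW : W.Δ ≠ 0) (hW' : W'.Δ ≠ 0) (hI : Isogenous W W') :
    ((∀ T : AddSubgroup (Affine.baseChange W (AlgebraicClosure K)).Point,
        Stab W T → Nat.card T ≠ 3) → (ConjCS 3 W ↔ ConjCS 3 W')) ∧
    ∀ (T : AddSubgroup (Affine.baseChange W (AlgebraicClosure K)).Point) (hs : Stab W T),
      Nat.card T = 3 →
      (∃ T' : AddSubgroup (Affine.baseChange W' (AlgebraicClosure K)).Point,
        Stab W' T' ∧ Nat.card T' = 3) ∧
      ∀ (T' : AddSubgroup (Affine.baseChange W' (AlgebraicClosure K)).Point) (hs' : Stab W' T'),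
        Nat.card T' = 3 →
        (∀ χ : (AlgebraicClosure K ≃ₐ[K] AlgebraicClosure K) →* ℤˣ,
          Iso (lineRep W T hs) (chRep χ) →
          Iso (lineRep W' T' hs') (chRep χ) ∨ Iso (lineRep W' T' hs') (chRep (χ * om K))) ∧
        (ConjCS 3 W ↔ DiscFin W T hs) ∧ (ConjCS 3 W' ↔ DiscFin W' T' hs') ∧
        ((ConjCS 3 W ↔ ConjCS 3 W') ↔ (DiscFin W T hs ↔ DiscFin W' T' hs')) :=
  pairs_main K W W' hW hW' hI

end Pool.Agent.Results.MP_b529ab_nt.IsogenousPairs
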