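import Pool.Agent.Helper96.P4.TrC

/-!
# Isogeny invariance of Conjecture A at the prime 3

`K` is a number field, `Kb` an algebraic closure, `A(K, M)` is Conjecture A (`ConjA`): the group
`H²(G_S(K_cyc), M)` is zero. For a character `χ` of `Gal(Kb/K)` with values `1` and `-1` let
`C(χ)` be the set of all elliptic curves `W` over `K` such that `W[3]` has a submodule isomorphic
to `F_3(χ)` or to `F_3(χω)`, where `ω` is the cyclotomic character mod 3.

Isogeny invariance of Conjecture A for the curves in `C(χ)` is equivalent to the statement that
Conjecture A for `W[3]`, `W` in `C(χ)`, does not depend on `W` at all, and also to the statement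
that it holds exactly if it holds for the two characters; here `W[3]` can be replaced by an
arbitrary extension of the two characters.

The idea: every `W` in `C(χ)` is, up to isomorphism, `y² = x³ + d (a x + b)²`, where `d` belongs
to `χ` or `χω`, and the Galois module `W[3]` is determined by `d` modulo squares and
`δ = a³ - 27 b / (4 d)` modulo cubes. The curve that is 3-isogenous to it has the invariants
`-3 d` and `a³ - δ`. So for given `d`, `δ` one can add differences of cubes to `δ`, and by
Ryley's identity every element of `K` is a sum of three cubes.
-/

open Pool.Agent.Helper96.P4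

universe u

namespace Pool.Agent.Results.MP_b529ab_nt.IsogenyInvarianceAtThree

/-- Let `K` be a number field. For every character `χ` of `Gal(Kb/K)` with values `1` and `-1`
the following are equivalent:
(i) for isogenous `W`, `W'` in `C(χ)` one has `A(K, W[3])` if and only if `A(K, W'[3])`;
(ii) for `W` in `C(χ)`, `A(K, W[3])` holds if and only if `A(K, F_3(χ))` and `A(K, F_3(χω))` hold;
(iii) `A(K, W[3])` holds for all or for no `W` in `C(χ)`;
(iv) if `M` is an extension of `F_3(χ)` and `F_3(χω)`, in either order, then `A(K, M)` holds if
and only if `A(K, F_3(χ))` and `A(K, F_3(χω))` hold.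
And Conjecture A for `W[3]` is isogeny invariant over `K` if and only if (iii) is true for
all `χ`. -/
theorem result (K : Type u) [Field K] [NumberField K] :
    (∀ χ : (AlgebraicClosure K ≃ₐ[K] AlgebraicClosure K) →* ℤˣ,
      List.TFAE [IsogAt K χ, SplitAt K χ, ConstAt K χ, ExtAt K χ]) ∧
    (IsogInv K ↔ ∀ χ : (AlgebraicClosure K ≃ₐ[K] AlgebraicClosure K) →* ℤˣ, ConstAt K χ) :=
  main K

end Pool.Agent.Results.MP_b529ab_nt.IsogenyInvarianceAtThree
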