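import Pool.Agent.Helper58.P4.TrM

/-!
# Isogeny invariance of Conjecture A at 3 and the curves `y² = x³ + k`

`K` is a number field, `Kb` an algebraic closure. Conjecture A of Coates and Sujatha for an
elliptic curve `W` over `K` and `p = 3` (`ConjCS 3 W`) says that the Pontryagin dual of the fine
Selmer group of `W[3^∞]` over the cyclotomic `ℤ_3`-extension `K_cyc` is a finitely generated
`ℤ_3`-module.

Isogeny invariance of Conjecture A at 3 over `K` is equivalent to its special case of the curves
`y² = x³ + k` and `y² = x³ - 27 k`. For `d` in `K^×` let `χ` be the character of `K(√d)` and `ω` the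
cyclotomic character mod 3, and let `C(χ)` be the set of all elliptic curves `W` over `K` such that
`W[3]` has a submodule isomorphic to `F_3(χ)` or to `F_3(χω)`. Isogeny invariance for the curves in
`C(χ)` is equivalent to the special case with `k` in `d K^{×2}`, and to a statement on the fine
Selmer groups of the one-dimensional modules `F_3(χ)` and `F_3(χω)` over the pure cubic extensions
of `K`.
-/

open Pool.Agent.Helper58.P4

universe u

namespace Pool.Agent.Results.MP_b529ab_nt.MordellCurves

/-- Let `K` be a number field. Conjecture A at 3 is isogeny invariant over `K` if and only if for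
all `k` in `K^×`: if it holds for `y² = x³ + k`, then it holds for `y² = x³ - 27 k`.

For every `d` in `K^×`, with `χ` the character of `K(√d)`, the following are equivalent:
(i) for isogenous `W`, `W'` in `C(χ)`, Conjecture A holds for `W` if and only if it holds for `W'`;
(ii) for all `k` in `d K^{×2}`, it holds for `y² = x³ + k` if and only if it holds for
`y² = x³ - 27 k`;
(iii) it holds for all or for no `W` in `C(χ)`;
(iv) for `W` in `C(χ)`, Conjecture A holds for `W` if and only if the fine Selmer groups of
`F_3(χ)` and `F_3(χω)` over `K_cyc` are finite;
(v) if `M` is an extension of `F_3(χ)` and `F_3(χω)`, in either order, then the fine Selmer group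
of `M` over `K_cyc` is finite if and only if those of `F_3(χ)` and `F_3(χω)` are;
(vi) for every pure cubic extension `B` of `K`: the fine Selmer group of `F_3(χ)` over `B_cyc` is
finite if and only if that of `F_3(χω)` is. -/
theorem result (K : Type u) [Field K] [NumberField K] :
    (IsogCS K ↔
      ∀ k : K, k ≠ 0 → ConjCS 3 (mordell k) → ConjCS 3 (mordell (-27 * k))) ∧
    ∀ d : K, d ≠ 0 →
      List.TFAE [IsogCSAt K (qch d), MordAt K d, ConstCSAt K (qch d), SplitCSAt K (qch d),
        ExtSel K (qch d), CubicRefl K (qch d)] :=
  mordell_main K

end Pool.Agent.Results.MP_b529ab_nt.MordellCurves
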